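import Pool.Agent.W5h7.SNL.Main

/-!
# The strong n-conjecture: a factor `(log R) ^ A` for every `A`, without vanishing sub-sums

For every `n ≥ 4` and EVERY `A` there are infinitely many `n`-tuples of non-zero pairwise coprime
integers with sum zero and without vanishing proper sub-sums such that
`max |x_j| ≥ (R (log R) ^ A) ^ q`, where `R = rad (x_1 ⋯ x_n)` and `q = 9/7` for `n = 4`, `q = 5/3`
for odd `n`, `q = 7/5` for even `n ≥ 6`.

The polynomial identities are those of the earlier files `LogFactor`, `EvenLengths` and `Quadruples`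
(there `A = 1`). New is the choice of `X`: for every fixed `a ≠ 0`, every residue class and every `A`
there are arbitrarily large `X` in the class with `rad X * rad (X - a) * (log X) ^ A ≤ X`
(`Pool.Agent.W5h7.SNL.exists_small`). Here `X` is a product of powers of `m + 1` numbers of size about
`Z = q ^ s`, with exponents at most `C Z ^ 2`, and `Z ^ (2 m + 1)` divides `X - a`. The exponents are
found with truncated logarithms: the `2 m` power series `log (1 + a_i z)`, `z log (1 + a_i z)` are
linearly independent modulo `z ^ (2 m + 1)` (Hermite interpolation at the double points `a_i`).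
For `n ≥ 5` the constant of the identity is split into pairwise coprime integers without vanishing
sub-sum.
-/

set_option autoImplicit false

namespace Pool.Agent.Results.MP_7ecdd4_nt.EveryLogPower

/-- `x` is an admissible tuple: non-zero pairwise coprime integers with sum zero. -/
def Admissible {n : ℕ} (x : Fin n → ℤ) : Prop :=
  (∀ i, x i ≠ 0) ∧ (∀ i j, i ≠ j → Int.gcd (x i) (x j) = 1) ∧ ∑ i, x i = 0

/-- No sub-sum over a non-empty proper set of indices vanishes. -/
def NoVanishingSubsum {n : ℕ} (x : Fin n → ℤ) : Prop :=
  ∀ S : Finset (Fin n), S.Nonempty → S ≠ Finset.univ → ∑ i ∈ S, x i ≠ 0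

/-- The radical of `x_1 ⋯ x_n`: the product of the primes dividing it. -/
def rad {n : ℕ} (x : Fin n → ℤ) : ℕ := ∏ p ∈ (∏ i, x i).natAbs.primeFactors, p

/-- `9/7` for `n = 4`, `5/3` for odd `n`, `7/5` for even `n ≠ 4`. -/
noncomputable def q (n : ℕ) : ℝ := if n = 4 then 9 / 7 else if Odd n then 5 / 3 else 7 / 5

/-- **Lower bounds in the strong `n`-conjecture with every power of the logarithm.** -/
theorem result (n : ℕ) (hn : 4 ≤ n) (A : ℕ) :
    {x : Fin n → ℤ | (Admissible x ∧ NoVanishingSubsum x) ∧
      ∃ j, ((rad x : ℝ) * Real.log (rad x) ^ A) ^ q n ≤ |((x j : ℤ) : ℝ)|}.Infinite :=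
  Pool.Agent.W5h7.SNL.main n hn A

end Pool.Agent.Results.MP_7ecdd4_nt.EveryLogPower
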