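import Pool.Agent.W5h18.EP.One

/-!
# The strong `n`-conjecture at every point of the line, in almost all coordinates

Admissible `n`-tuples are often produced by binary forms: `z` is proportional to
`(P_1(y), …, P_n(y))`, where the `P_i` are products of `d` integral linear forms and `y` is a point of
the projective line over `ℚ`; for `d = 1` and `n = 3` this gives all solutions of `z_1 + z_2 + z_3 = 0`.
If the `P_i` have `q` different linear factors altogether, then `rad (z_1 ⋯ z_n)` is at most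
`O (H(y) ^ q)`, and `max |z_i|` is usually of the order `H(y) ^ d`, so that in
`max |z_i| ≤ rad (z_1 ⋯ z_n) ^ M` one cannot expect more than `M = d / q`.

Let `x` be ANY point of the line over `ℚ`; there are no exceptional points. Instead of `x` we consider
its images `y = g x` under the matrices `g ∈ SL₂(ℤ)` with entries of absolute value at most `D` (there
are at least `D² / 2` of these). For all these `g`, up to a proportion of `D ^ (-δ)`, the inequality
holds with `M = c d / q` for all `n`, all `d ≤ Δ`, all `q` and all admissible `n`-tuples `z` which are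
values at `y` of such forms `P_i`, with linear factors of height at most `D ^ η`. Here `c` is any
number `> 1`, if `H(x) ≤ D ^ A` with `A < 5`, and any number larger than `(A + 1) / 4`, if `A ≥ 5`.
-/

set_option autoImplicit false

namespace Pool.Agent.Results.MP_7ecdd4_nt.EveryPointCurves

open Filter Matrix

/-- The product of the primes dividing `m`. -/
def rad (m : ℤ) : ℕ := ∏ p ∈ m.natAbs.primeFactors, p

/-- An admissible tuple: nonzero pairwise coprime integers with sum zero. -/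
def Admissible {n : ℕ} (z : Fin n → ℤ) : Prop :=
  (∀ i, z i ≠ 0) ∧ (∀ i j, i ≠ j → IsCoprime (z i) (z j)) ∧ ∑ i, z i = 0

/-- The value at `y` of the linear form with the coefficients `u`. -/
def lin (u y : ℤ × ℤ) : ℤ := u.1 * y.1 + u.2 * y.2

/-- `log H(x)` for the rational point with the coprime coordinates `x`. -/
noncomputable def hgt (x : ℤ × ℤ) : ℝ := Real.log (max x.1.natAbs x.2.natAbs : ℕ)

/-- The image of the point `x` under `g`; coprime coordinates go to coprime coordinates. -/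
def act (g : SpecialLinearGroup (Fin 2) ℤ) (x : ℤ × ℤ) : ℤ × ℤ :=
  (g 0 0 * x.1 + g 0 1 * x.2, g 1 0 * x.1 + g 1 1 * x.2)

/-- The matrices in `SL₂(ℤ)` with entries of absolute value at most `D`. -/
def Ball (D : ℕ) : Set (SpecialLinearGroup (Fin 2) ℤ) := {g | ∀ i j, |g i j| ≤ (D : ℤ)}

/-- The tuple `z` is the value at `y` of the binary forms `∏_j u_ij / k`, `i < n`, of degree `d`, where
`k` and the coefficients of the linear forms `u_ij` are integers of absolute value at most `H`, and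
the linear forms `u_ij` with `(i, j)` among `s_0, …, s_(q-1)` are pairwise not proportional. -/
def Value (H : ℝ) (n d q : ℕ) (u : Fin n → Fin d → ℤ × ℤ) (s : Fin q → Fin n × Fin d) (k : ℤ)
    (y : ℤ × ℤ) (z : Fin n → ℤ) : Prop :=
  (∀ i j, |((u i j).1 : ℝ)| ≤ H ∧ |((u i j).2 : ℝ)| ≤ H) ∧
    (∀ a b, a ≠ b → (u (s a).1 (s a).2).1 * (u (s b).1 (s b).2).2 ≠
      (u (s b).1 (s b).2).1 * (u (s a).1 (s a).2).2) ∧
    k ≠ 0 ∧ |(k : ℝ)| ≤ H ∧ ∀ i, k * z i = ∏ j, lin (u i j) y

/-- All admissible `n`-tuples `z` which are values at `y` of products of `d ≤ Δ` linear forms of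
height at most `D ^ η`, `q ≥ 1` of them being pairwise not proportional, satisfy
`|z_i| ≤ rad (z_1 ⋯ z_n) ^ (c d / q)`. -/
def StrongN (c η : ℝ) (Δ D : ℕ) (y : ℤ × ℤ) : Prop :=
  ∀ (n d q : ℕ) (u : Fin n → Fin d → ℤ × ℤ) (s : Fin q → Fin n × Fin d) (k : ℤ) (z : Fin n → ℤ),
    d ≤ Δ → 1 ≤ q → Value ((D : ℝ) ^ η) n d q u s k y z → Admissible z →
      ∀ i, |(z i : ℝ)| ≤ (rad (∏ i, z i) : ℝ) ^ (c * d / q)

/-! ### linear forms -/

lemma prim (u : ℤ × ℤ) (hu : u ≠ 0) : ∃ (k : ℤ) (β : ℤ × ℤ), k ≠ 0 ∧ IsCoprime β.1 β.2 ∧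
    u.1 = k * β.2 ∧ u.2 = -(k * β.1) := by
  have h0 : 0 < Int.gcd u.1 u.2 := by
    rw [Int.gcd_pos_iff]
    by_contra h
    push Not at h
    exact hu (Prod.ext h.1 h.2)
  obtain ⟨m, n, h1, h2, h3⟩ := Int.exists_gcd_one h0
  refine ⟨(Int.gcd u.1 u.2 : ℤ), (-n, m), by exact_mod_cast h0.ne', ?_, ?_, ?_⟩
  · simp only
    rw [IsCoprime.neg_left_iff]
    exact (Int.isCoprime_iff_gcd_eq_one.2 h1).symm
  · simp only
    rw [mul_comm]
    exact h2
  · simp only
    rw [mul_neg, neg_neg, mul_comm]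
    exact h3

lemma both {y u v : ℤ × ℤ} (hy : IsCoprime y.1 y.2) {p : ℤ} (h1 : p ∣ lin u y)
    (h2 : p ∣ lin v y) : p ∣ u.1 * v.2 - v.1 * u.2 := by
  obtain ⟨r, t, h⟩ := hy
  have e : u.1 * v.2 - v.1 * u.2 =
      (v.2 * r - v.1 * t) * lin u y + (u.1 * t - u.2 * r) * lin v y := by
    unfold lin
    linear_combination -(u.1 * v.2 - v.1 * u.2) * h
  rw [e]
  exact dvd_add (Dvd.dvd.mul_left h1 _) (Dvd.dvd.mul_left h2 _)

lemma log_lin_le {u y : ℤ × ℤ} {H : ℝ} (hH : 1 ≤ H) (hu : |(u.1 : ℝ)| ≤ H ∧ |(u.2 : ℝ)| ≤ H)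
    (hy : IsCoprime y.1 y.2) (h0 : lin u y ≠ 0) :
    Real.log |(lin u y : ℝ)| ≤ Real.log 2 + Real.log H + hgt y := by
  set M : ℕ := max y.1.natAbs y.2.natAbs with hM
  have hM0 : 0 < M := by
    by_contra h
    have h1 : y.1 = 0 := Int.natAbs_eq_zero.1 (by
      have := le_max_left y.1.natAbs y.2.natAbs
      omega)
    have h2 : y.2 = 0 := Int.natAbs_eq_zero.1 (by
      have := le_max_right y.1.natAbs y.2.natAbs
      omega)
    rw [h1, h2] at hy
    exact not_isCoprime_zero_zero hy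
  have hMr : (0 : ℝ) < M := by exact_mod_cast hM0
  have hy1 : |(y.1 : ℝ)| ≤ M := by
    have : y.1.natAbs ≤ M := le_max_left _ _
    rw [← Int.cast_abs, Int.abs_eq_natAbs]
    exact_mod_cast this
  have hy2 : |(y.2 : ℝ)| ≤ M := by
    have : y.2.natAbs ≤ M := le_max_right _ _
    rw [← Int.cast_abs, Int.abs_eq_natAbs]
    exact_mod_cast this
  have h1 : |(lin u y : ℝ)| ≤ 2 * H * M := by
    unfold lin
    push_cast
    calc |(u.1 : ℝ) * y.1 + u.2 * y.2| ≤ |(u.1 : ℝ) * y.1| + |(u.2 : ℝ) * y.2| := abs_add_le _ _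
      _ = |(u.1 : ℝ)| * |(y.1 : ℝ)| + |(u.2 : ℝ)| * |(y.2 : ℝ)| := by rw [abs_mul, abs_mul]
      _ ≤ H * M + H * M := add_le_add (mul_le_mul hu.1 hy1 (abs_nonneg _) (by linarith))
          (mul_le_mul hu.2 hy2 (abs_nonneg _) (by linarith))
      _ = 2 * H * M := by ring
  have h2 : 0 < |(lin u y : ℝ)| := abs_pos.2 (by exact_mod_cast h0)
  have h3 := Real.log_le_log h2 h1
  rw [Real.log_mul (by positivity) hMr.ne', Real.log_mul (by norm_num) (by linarith)] at h3
  exact h3

lemma det_log_le {u v : ℤ × ℤ} {H : ℝ} (hH : 1 ≤ H) (hu : |(u.1 : ℝ)| ≤ H ∧ |(u.2 : ℝ)| ≤ H)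
    (hv : |(v.1 : ℝ)| ≤ H ∧ |(v.2 : ℝ)| ≤ H) :
    Real.log ((u.1 * v.2 - v.1 * u.2).natAbs : ℝ) ≤ Real.log 2 + 2 * Real.log H := by
  rcases Nat.eq_zero_or_pos (u.1 * v.2 - v.1 * u.2).natAbs with h0 | h0
  · rw [h0]
    simp only [Nat.cast_zero, Real.log_zero]
    have := Real.log_nonneg hH
    have := Real.log_nonneg (by norm_num : (1 : ℝ) ≤ 2)
    positivity
  · have h1 : ((u.1 * v.2 - v.1 * u.2).natAbs : ℝ) ≤ 2 * H ^ 2 := by
      rw [Nat.cast_natAbs, Int.cast_abs]
      push_cast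
      calc |(u.1 : ℝ) * v.2 - v.1 * u.2| ≤ |(u.1 : ℝ) * v.2| + |(v.1 : ℝ) * u.2| := abs_sub _ _
        _ = |(u.1 : ℝ)| * |(v.2 : ℝ)| + |(v.1 : ℝ)| * |(u.2 : ℝ)| := by rw [abs_mul, abs_mul]
        _ ≤ H * H + H * H := add_le_add (mul_le_mul hu.1 hv.2 (abs_nonneg _) (by linarith))
            (mul_le_mul hv.1 hu.2 (abs_nonneg _) (by linarith))
        _ = 2 * H ^ 2 := by ring
    have h2 := Real.log_le_log (by exact_mod_cast h0) h1
    rwa [Real.log_mul (by norm_num) (by positivity), Real.log_pow, Nat.cast_ofNat] at h2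

lemma sum_primeFactors_le (n : ℕ) : ∑ p ∈ n.primeFactors, Real.log p ≤ Real.log n := by
  rcases Nat.eq_zero_or_pos n with h | h
  · rw [h]
    simp
  rw [← Real.log_prod fun p hp => by exact_mod_cast (Nat.prime_of_mem_primeFactors hp).ne_zero]
  have h1 : 0 < ∏ p ∈ n.primeFactors, p :=
    Finset.prod_pos fun p hp => (Nat.prime_of_mem_primeFactors hp).pos
  have h2 := Nat.le_of_dvd h (Nat.prod_primeFactors_dvd n)
  rw [← Nat.cast_prod]
  exact Real.log_le_log (by exact_mod_cast h1) (by exact_mod_cast h2)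

lemma log_rad (m : ℤ) : Real.log (rad m) = ∑ p ∈ m.natAbs.primeFactors, Real.log p := by
  unfold rad
  rw [Nat.cast_prod, Real.log_prod fun p hp => by
    exact_mod_cast (Nat.prime_of_mem_primeFactors hp).ne_zero]

lemma rad_pos (m : ℤ) : 0 < rad m :=
  Finset.prod_pos fun _ hp => (Nat.prime_of_mem_primeFactors hp).pos

lemma sum_biUnion_le {ι : Type*} [DecidableEq ι] (s : Finset ι) (f : ι → Finset ℕ) :
    ∑ p ∈ s.biUnion f, Real.log (p : ℝ) ≤ ∑ i ∈ s, ∑ p ∈ f i, Real.log (p : ℝ) := by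
  induction s using Finset.induction_on with
  | empty => simp
  | insert a s ha ih =>
    rw [Finset.biUnion_insert, Finset.sum_insert ha]
    have h1 := Finset.sum_union_inter (s₁ := f a) (s₂ := s.biUnion f)
      (f := fun p : ℕ => Real.log (p : ℝ))
    have h2 : 0 ≤ ∑ p ∈ f a ∩ s.biUnion f, Real.log (p : ℝ) :=
      Finset.sum_nonneg fun p _ => Real.log_natCast_nonneg p
    linarith

open Pool.Agent.W5h18.EP (OneGood)

/-- one linear form -/
lemma form_bound {ε η A : ℝ} {D : ℕ} {y : ℤ × ℤ} (hg : OneGood ε η A D y) {u : ℤ × ℤ} {H : ℝ}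
    (hHη : Real.log H ≤ η * Real.log D) (hu : |(u.1 : ℝ)| ≤ H ∧ |(u.2 : ℝ)| ≤ H)
    (h0 : lin u y ≠ 0) (T : Finset ℕ) (hT : ∑ p ∈ T, Real.log (p : ℝ) ≤ η * Real.log D) :
    (1 - ε) * min (hgt y) (4 * Real.log D) ≤
        ∑ p ∈ (lin u y).natAbs.primeFactors \ T, Real.log (p : ℝ) ∧
      (A < 5 → (1 - ε) * hgt y ≤ ∑ p ∈ (lin u y).natAbs.primeFactors \ T, Real.log (p : ℝ)) := by
  have hu0 : u ≠ 0 := by
    rintro rfl
    apply h0
    unfold lin
    simp
  obtain ⟨k, β, hk, hβ, h1, h2⟩ := prim u hu0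
  have hkabs : 1 ≤ k.natAbs := Nat.one_le_iff_ne_zero.2 (Int.natAbs_ne_zero.2 hk)
  have e : lin u y = k * (y.1 * β.2 - y.2 * β.1) := by
    unfold lin
    rw [h1, h2]
    ring
  have hb2 : β.2.natAbs ≤ u.1.natAbs := by
    rw [h1, Int.natAbs_mul]
    exact Nat.le_mul_of_pos_left _ hkabs
  have hb1 : β.1.natAbs ≤ u.2.natAbs := by
    rw [h2, Int.natAbs_neg, Int.natAbs_mul]
    exact Nat.le_mul_of_pos_left _ hkabs
  have hhβ : hgt β ≤ η * Real.log D := by
    refine le_trans ?_ hHη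
    unfold hgt
    have h3 : 0 < max β.1.natAbs β.2.natAbs := by
      by_contra h3
      have h4 : β.1 = 0 := Int.natAbs_eq_zero.1 (by
        have := le_max_left β.1.natAbs β.2.natAbs
        omega)
      have h5 : β.2 = 0 := Int.natAbs_eq_zero.1 (by
        have := le_max_right β.1.natAbs β.2.natAbs
        omega)
      rw [h4, h5] at hβ
      exact not_isCoprime_zero_zero hβ
    apply Real.log_le_log (by exact_mod_cast h3)
    have i1 : (u.1.natAbs : ℝ) ≤ H := by
      rw [Nat.cast_natAbs, Int.cast_abs]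
      exact hu.1
    have i2 : (u.2.natAbs : ℝ) ≤ H := by
      rw [Nat.cast_natAbs, Int.cast_abs]
      exact hu.2
    rcases max_choice β.1.natAbs β.2.natAbs with h4 | h4 <;> rw [h4]
    · exact le_trans (by exact_mod_cast hb1) i2
    · exact le_trans (by exact_mod_cast hb2) i1
  obtain ⟨g1, g2, g3⟩ := hg β T hβ hhβ hT
  have hsub : (y.1 * β.2 - y.2 * β.1).natAbs.primeFactors \ T ⊆
      (lin u y).natAbs.primeFactors \ T := by
    apply Finset.sdiff_subset_sdiff _ (le_refl T)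
    apply Nat.primeFactors_mono
    · rw [e, Int.natAbs_mul]
      exact Dvd.intro_left _ rfl
    · exact Int.natAbs_ne_zero.2 h0
  have hle : ∑ p ∈ (y.1 * β.2 - y.2 * β.1).natAbs.primeFactors \ T, Real.log (p : ℝ) ≤
      ∑ p ∈ (lin u y).natAbs.primeFactors \ T, Real.log (p : ℝ) :=
    Finset.sum_le_sum_of_subset_of_nonneg hsub fun p _ _ => Real.log_natCast_nonneg p
  exact ⟨g2.trans hle, fun h5 => (g3 h5).trans hle⟩

/-- the lower bound for the radical -/
theorem rad_ge {ε η A m : ℝ} {D Δ : ℕ} {y : ℤ × ℤ} (hy : IsCoprime y.1 y.2)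
    (hg : OneGood ε η A D y) {H : ℝ} (hH : 1 ≤ H)
    (hHη : Real.log H + (Δ : ℝ) ^ 2 * (Real.log 2 + 2 * Real.log H) ≤ η * Real.log D)
    (hm : (m = min (hgt y) (4 * Real.log D)) ∨ (A < 5 ∧ m = hgt y))
    {n d q : ℕ} {u : Fin n → Fin d → ℤ × ℤ} {s : Fin q → Fin n × Fin d} {k : ℤ} {z : Fin n → ℤ}
    (hd : d ≤ Δ) (hv : Value H n d q u s k y z) (hz : Admissible z) :
    q * ((1 - ε) * m) ≤ Real.log (rad (∏ i, z i)) := by
  classical
  obtain ⟨hu, hs, hk0, hk, hval⟩ := hv
  obtain ⟨hz0, hzc, -⟩ := hz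
  have hlH : 0 ≤ Real.log H := Real.log_nonneg hH
  have hl2 : 0 ≤ Real.log 2 := Real.log_nonneg (by norm_num)
  have hD2 : 0 ≤ (Δ : ℝ) ^ 2 * (Real.log 2 + 2 * Real.log H) := by positivity
  -- the linear forms do not vanish
  have hlin : ∀ i j, lin (u i j) y ≠ 0 := by
    intro i j h
    have h1 := hval i
    rw [Finset.prod_eq_zero (Finset.mem_univ j) h] at h1
    rcases mul_eq_zero.1 h1 with h2 | h2
    · exact hk0 h2
    · exact hz0 i h2
  -- the excluded primes
  set dt : Fin n → Fin d × Fin d → ℤ := fun i jl =>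
    (u i jl.1).1 * (u i jl.2).2 - (u i jl.2).1 * (u i jl.1).2 with hdt
  set T : Fin n → Finset ℕ := fun i => k.natAbs.primeFactors ∪
    (Finset.univ : Finset (Fin d × Fin d)).biUnion fun jl => (dt i jl).natAbs.primeFactors with hT
  have hTsum : ∀ i, ∑ p ∈ T i, Real.log (p : ℝ) ≤ η * Real.log D := by
    intro i
    have h1 := Finset.sum_union_inter (s₁ := k.natAbs.primeFactors)
      (s₂ := (Finset.univ : Finset (Fin d × Fin d)).biUnion fun jl =>
        (dt i jl).natAbs.primeFactors) (f := fun p : ℕ => Real.log (p : ℝ))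
    have h2 : 0 ≤ ∑ p ∈ k.natAbs.primeFactors ∩
        (Finset.univ : Finset (Fin d × Fin d)).biUnion fun jl => (dt i jl).natAbs.primeFactors,
        Real.log (p : ℝ) := Finset.sum_nonneg fun p _ => Real.log_natCast_nonneg p
    have h3 := sum_biUnion_le (Finset.univ : Finset (Fin d × Fin d))
      fun jl => (dt i jl).natAbs.primeFactors
    have h4 : ∑ jl : Fin d × Fin d, ∑ p ∈ (dt i jl).natAbs.primeFactors, Real.log (p : ℝ) ≤
        (Δ : ℝ) ^ 2 * (Real.log 2 + 2 * Real.log H) := by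
      calc ∑ jl : Fin d × Fin d, ∑ p ∈ (dt i jl).natAbs.primeFactors, Real.log (p : ℝ) ≤
          ∑ _jl : Fin d × Fin d, (Real.log 2 + 2 * Real.log H) :=
            Finset.sum_le_sum fun jl _ => (sum_primeFactors_le _).trans
              (det_log_le hH (hu i jl.1) (hu i jl.2))
        _ = (d : ℝ) ^ 2 * (Real.log 2 + 2 * Real.log H) := by
            rw [Finset.sum_const, Finset.card_univ, Fintype.card_prod, Fintype.card_fin,
              nsmul_eq_mul]
            push_cast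
            ring
        _ ≤ (Δ : ℝ) ^ 2 * (Real.log 2 + 2 * Real.log H) := by
            have hd' : (d : ℝ) ≤ Δ := by exact_mod_cast hd
            have : (d : ℝ) ^ 2 ≤ (Δ : ℝ) ^ 2 := pow_le_pow_left₀ (Nat.cast_nonneg _) hd' 2
            exact mul_le_mul_of_nonneg_right this (by positivity)
    have h5 : ∑ p ∈ k.natAbs.primeFactors, Real.log (p : ℝ) ≤ Real.log H := by
      refine (sum_primeFactors_le _).trans ?_
      have : (0 : ℝ) < k.natAbs := by exact_mod_cast Int.natAbs_pos.2 hk0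
      apply Real.log_le_log this
      rw [Nat.cast_natAbs, Int.cast_abs]
      exact hk
    linarith
  -- the sets of primes
  set F : Fin q → Finset ℕ := fun a =>
    (lin (u (s a).1 (s a).2) y).natAbs.primeFactors \ T (s a).1 with hF
  have hFm : ∀ a, (1 - ε) * m ≤ ∑ p ∈ F a, Real.log (p : ℝ) := by
    intro a
    obtain ⟨h1, h2⟩ := form_bound hg (by linarith) (hu (s a).1 (s a).2)
      (hlin (s a).1 (s a).2) (T (s a).1) (hTsum _)
    rcases hm with hm | ⟨hA, hm⟩
    · rw [hm]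
      exact h1
    · rw [hm]
      exact h2 hA
  have hFz : ∀ a, ∀ p ∈ F a, p.Prime ∧ p ∈ (z (s a).1).natAbs.primeFactors := by
    intro a p hp
    rw [hF, Finset.mem_sdiff, hT, Finset.mem_union, not_or] at hp
    obtain ⟨h1, h2, -⟩ := hp
    have hpp := Nat.prime_of_mem_primeFactors h1
    refine ⟨hpp, Nat.mem_primeFactors.2 ⟨hpp, ?_, Int.natAbs_ne_zero.2 (hz0 _)⟩⟩
    have h3 : (p : ℤ) ∣ k * z (s a).1 := by
      rw [hval]
      exact (Int.natCast_dvd.2 (Nat.dvd_of_mem_primeFactors h1)).trans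
        (Finset.dvd_prod_of_mem _ (Finset.mem_univ _))
    rcases (Nat.prime_iff_prime_int.1 hpp).dvd_or_dvd h3 with h4 | h4
    · exact absurd (Nat.mem_primeFactors.2 ⟨hpp, Int.natCast_dvd.1 h4,
        Int.natAbs_ne_zero.2 hk0⟩) h2
    · exact Int.natCast_dvd.1 h4
  have hdisj : ∀ a ∈ (Finset.univ : Finset (Fin q)), ∀ b ∈ (Finset.univ : Finset (Fin q)), a ≠ b →
      Disjoint (F a) (F b) := by
    intro a _ b _ hab
    rw [Finset.disjoint_left]
    intro p hpa hpb
    obtain ⟨hpp, h1⟩ := hFz a p hpa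
    obtain ⟨-, h2⟩ := hFz b p hpb
    by_cases hrow : (s a).1 = (s b).1
    · rw [hF, Finset.mem_sdiff, hT, Finset.mem_union, not_or] at hpa
      rw [hF, Finset.mem_sdiff] at hpb
      obtain ⟨h3, -, h4⟩ := hpa
      apply h4
      rw [Finset.mem_biUnion]
      refine ⟨((s a).2, (s b).2), Finset.mem_univ _, ?_⟩
      have h5 : (p : ℤ) ∣ dt (s a).1 ((s a).2, (s b).2) := by
        have h6 := Int.natCast_dvd.2 (Nat.dvd_of_mem_primeFactors h3)
        have h7 := Int.natCast_dvd.2 (Nat.dvd_of_mem_primeFactors hpb.1)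
        rw [← hrow] at h7
        exact both hy h6 h7
      refine Nat.mem_primeFactors.2 ⟨hpp, Int.natCast_dvd.1 h5, Int.natAbs_ne_zero.2 ?_⟩
      have h8 := hs a b hab
      rw [← hrow] at h8
      rw [hdt]
      exact sub_ne_zero.2 h8
    · have h3 := Int.natCast_dvd.2 (Nat.dvd_of_mem_primeFactors h1)
      have h4 := Int.natCast_dvd.2 (Nat.dvd_of_mem_primeFactors h2)
      have h5 := (hzc _ _ hrow).isUnit_of_dvd' h3 h4
      rw [Int.isUnit_iff] at h5
      have := hpp.two_le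
      omega
  have hsub : (Finset.univ : Finset (Fin q)).biUnion F ⊆ (∏ i, z i).natAbs.primeFactors := by
    intro p hp
    obtain ⟨a, _, ha⟩ := Finset.mem_biUnion.1 hp
    obtain ⟨hpp, h1⟩ := hFz a p ha
    refine Nat.mem_primeFactors.2 ⟨hpp, ?_, ?_⟩
    · exact (Nat.dvd_of_mem_primeFactors h1).trans
        (Int.natAbs_dvd_natAbs.2 (Finset.dvd_prod_of_mem _ (Finset.mem_univ _)))
    · exact Int.natAbs_ne_zero.2 (Finset.prod_ne_zero_iff.2 fun i _ => hz0 i)
  rw [log_rad]
  calc q * ((1 - ε) * m) = ∑ _a : Fin q, (1 - ε) * m := by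
        rw [Finset.sum_const, Finset.card_univ, Fintype.card_fin, nsmul_eq_mul]
    _ ≤ ∑ a : Fin q, ∑ p ∈ F a, Real.log (p : ℝ) := Finset.sum_le_sum fun a _ => hFm a
    _ = ∑ p ∈ (Finset.univ : Finset (Fin q)).biUnion F, Real.log (p : ℝ) :=
        (Finset.sum_biUnion hdisj).symm
    _ ≤ _ := Finset.sum_le_sum_of_subset_of_nonneg hsub fun p _ _ => Real.log_natCast_nonneg p

/-- the upper bound for the entries -/
theorem log_entry_le {y : ℤ × ℤ} (hy : IsCoprime y.1 y.2) {H : ℝ} (hH : 1 ≤ H)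
    {n d q : ℕ} {u : Fin n → Fin d → ℤ × ℤ} {s : Fin q → Fin n × Fin d} {k : ℤ} {z : Fin n → ℤ}
    (hv : Value H n d q u s k y z) (hz : Admissible z) (i : Fin n) :
    Real.log |(z i : ℝ)| ≤ d * (Real.log 2 + Real.log H + hgt y) := by
  obtain ⟨hu, -, hk0, -, hval⟩ := hv
  have hlin : ∀ j, lin (u i j) y ≠ 0 := by
    intro j h
    have h1 := hval i
    rw [Finset.prod_eq_zero (Finset.mem_univ j) h] at h1
    rcases mul_eq_zero.1 h1 with h2 | h2
    · exact hk0 h2
    · exact hz.1 i h2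
  have h1 : |(z i : ℝ)| ≤ |((k * z i : ℤ) : ℝ)| := by
    push_cast
    rw [abs_mul]
    have : (1 : ℝ) ≤ |(k : ℝ)| := by
      rw [← Int.cast_abs]
      exact_mod_cast Int.one_le_abs hk0
    exact le_mul_of_one_le_left (abs_nonneg _) this
  have h2 : 0 < |(z i : ℝ)| := abs_pos.2 (by exact_mod_cast hz.1 i)
  refine (Real.log_le_log h2 h1).trans ?_
  rw [hval i, Int.cast_prod, Finset.abs_prod, Real.log_prod fun j _ => by
    exact (abs_pos.2 (by exact_mod_cast hlin j)).ne']
  calc ∑ j, Real.log |((lin (u i j) y : ℤ) : ℝ)| ≤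
      ∑ _j : Fin d, (Real.log 2 + Real.log H + hgt y) :=
        Finset.sum_le_sum fun j _ => log_lin_le hH (hu i j) hy (hlin j)
    _ = d * (Real.log 2 + Real.log H + hgt y) := by
        rw [Finset.sum_const, Finset.card_univ, Fintype.card_fin, nsmul_eq_mul]

/-- **The strong `n`-conjecture at every point of the line, in almost all coordinates.** Let `A ≥ 0`,
`Δ` a natural number and `c > 1`, and if `A ≥ 5` let also `4 c > A + 1`. There are `δ, η > 0` such that
for all large `D` and EVERY point `x` of the projective line over `ℚ` with `H(x) ≤ D ^ A`, all but a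
proportion of at most `D ^ (-δ)` of the (at least `D² / 2`) matrices `g ∈ SL₂(ℤ)` with entries of
absolute value at most `D` have the following property, with `y = g x`: for ALL `n`, all `d ≤ Δ`, all
`q ≥ 1`, all integral linear forms `u_ij`, `i ≤ n`, `j ≤ d`, with coefficients of absolute value at most
`D ^ η`, among which there are `q` pairwise not proportional ones, all admissible `n`-tuples `z` with
`k z_i = ∏_j u_ij(y)` for an integer `k ≠ 0` with `|k| ≤ D ^ η` satisfy
`max |z_i| ≤ rad (z_1 ⋯ z_n) ^ (c d / q)`. -/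
theorem result (A c : ℝ) (Δ : ℕ) (hA : 0 ≤ A) (hc : 1 < c) (hAc : A < 5 ∨ A + 1 < 4 * c) :
    ∃ δ η : ℝ, 0 < δ ∧ 0 < η ∧ ∀ᶠ D : ℕ in atTop,
      (Ball D).Finite ∧ (D : ℝ) ^ 2 / 2 ≤ ((Ball D).ncard : ℝ) ∧
      ∀ x : ℤ × ℤ, IsCoprime x.1 x.2 → hgt x ≤ A * Real.log D →
        (({g : SpecialLinearGroup (Fin 2) ℤ | g ∈ Ball D ∧
          ¬ StrongN c η Δ D (act g x)}.ncard : ℕ) : ℝ) ≤ (D : ℝ) ^ (-δ) * (Ball D).ncard := by
  -- the small parameter
  obtain ⟨ε, hε0, hε1, hεc, hεA⟩ : ∃ ε : ℝ, 0 < ε ∧ ε ≤ 1 ∧ 1 + 2 * ε ≤ c * (1 - ε) ∧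
      (¬ A < 5 → (1 + 2 * ε) * (A + 1 + ε) ≤ c * (1 - ε) * 4) := by
    have h1 : 0 < (c - 1) / (c + 2) := by
      apply div_pos <;> linarith
    have h1' : (c - 1) / (c + 2) ≤ 1 := by
      rw [div_le_one (by linarith)]
      linarith
    by_cases hA5 : A < 5
    · refine ⟨(c - 1) / (c + 2), h1, h1', ?_, fun h => absurd hA5 h⟩
      have h3 : (c - 1) / (c + 2) * (c + 2) = c - 1 := div_mul_cancel₀ _ (by linarith)
      nlinarith
    · have hAc' : A + 1 < 4 * c := by
        rcases hAc with h | h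
        · exact absurd h hA5
        · exact h
      have h2 : 0 < (4 * c - (A + 1)) / (2 * A + 5 + 4 * c) := by
        apply div_pos <;> linarith
      refine ⟨min ((c - 1) / (c + 2)) ((4 * c - (A + 1)) / (2 * A + 5 + 4 * c)), lt_min h1 h2,
        (min_le_left _ _).trans h1', ?_, fun _ => ?_⟩
      · have h3 := min_le_left ((c - 1) / (c + 2)) ((4 * c - (A + 1)) / (2 * A + 5 + 4 * c))
        rw [le_div_iff₀ (by linarith)] at h3
        nlinarith
      · have h3 := min_le_right ((c - 1) / (c + 2)) ((4 * c - (A + 1)) / (2 * A + 5 + 4 * c))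
        have h4 := (min_le_left ((c - 1) / (c + 2))
          ((4 * c - (A + 1)) / (2 * A + 5 + 4 * c))).trans h1'
        have h5 : 0 < min ((c - 1) / (c + 2)) ((4 * c - (A + 1)) / (2 * A + 5 + 4 * c)) :=
          lt_min h1 h2
        rw [le_div_iff₀ (by linarith)] at h3
        nlinarith
  obtain ⟨δ, η', hδ, hη', h⟩ := Pool.Agent.W5h18.EP.one_main A ε hA hε0 hε1
  -- the exponent of the coefficients
  obtain ⟨η, hη0, hη1, hη2⟩ : ∃ η : ℝ, 0 < η ∧ η ≤ ε * η' ∧ η * (1 + 2 * (Δ : ℝ) ^ 2) ≤ η' / 2 := by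
    have h1 : 0 < 1 + 2 * (Δ : ℝ) ^ 2 := by positivity
    refine ⟨min (ε * η') (η' / 2 / (1 + 2 * (Δ : ℝ) ^ 2)), lt_min (by positivity) (by positivity),
      min_le_left _ _, ?_⟩
    rw [← le_div_iff₀ h1]
    exact min_le_right _ _
  have hlarge : ∀ᶠ D : ℕ in atTop, (Δ : ℝ) ^ 2 * Real.log 2 ≤ η' / 2 * Real.log D ∧
      Real.log 2 ≤ ε * η' * Real.log D ∧ Real.log 2 ≤ ε * Real.log D := by
    have h1 : ∀ (a b : ℝ), 0 < b → ∀ᶠ D : ℕ in atTop, a ≤ b * Real.log D := by
      intro a b hb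
      have h1 : Tendsto (fun D : ℕ => b * Real.log D) atTop atTop :=
        Tendsto.const_mul_atTop hb (Real.tendsto_log_atTop.comp tendsto_natCast_atTop_atTop)
      exact h1.eventually_ge_atTop a
    filter_upwards [h1 ((Δ : ℝ) ^ 2 * Real.log 2) (η' / 2) (by positivity),
      h1 (Real.log 2) (ε * η') (by positivity), h1 (Real.log 2) ε hε0] with D h2 h3 h4
    exact ⟨h2, h3, h4⟩
  refine ⟨δ, η, hδ, hη0, ?_⟩
  filter_upwards [h, hlarge, eventually_ge_atTop 2] with D hD hDl hD2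
  obtain ⟨hfin, hcard, hmain⟩ := hD
  obtain ⟨hl1, hl2, hl3⟩ := hDl
  refine ⟨hfin, hcard, fun x hx hxA => ?_⟩
  have hx2 : (2 : ℝ) ≤ D := by exact_mod_cast hD2
  have hx0 : (0 : ℝ) < D := by linarith
  have hL0 : 0 < Real.log D := Real.log_pos (by linarith)
  refine le_trans ?_ (hmain x hx hxA)
  have hsub : {g : SpecialLinearGroup (Fin 2) ℤ | g ∈ Ball D ∧
      ¬ StrongN c η Δ D (act g x)} ⊆
      {g : SpecialLinearGroup (Fin 2) ℤ |
        g ∈ Pool.Agent.Results.MP_4d5ce1_nt.EveryPoint.Ball D ∧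
          ¬ (IsCoprime (act g x).1 (act g x).2 ∧
            η' * Real.log D < Pool.Agent.Results.MP_4d5ce1_nt.EveryPoint.hgt (act g x) ∧
            Pool.Agent.Results.MP_4d5ce1_nt.EveryPoint.hgt (act g x) ≤
              Real.log 2 + (A + 1) * Real.log D ∧
            OneGood ε η' A D (act g x))} := by
    rintro g ⟨hgB, hnot⟩
    refine ⟨hgB, fun hgood => hnot ?_⟩
    obtain ⟨hcop, hlow, hup, hone⟩ := hgood
    generalize act g x = y at *
    have hlow' : η' * Real.log D < hgt y := hlow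
    have hup' : hgt y ≤ Real.log 2 + (A + 1) * Real.log D := hup
    clear hlow hup
    intro n d q u s k z hd hq hv hz i
    have hq0 : (0 : ℝ) < q := by exact_mod_cast hq
    have hH : 1 ≤ (D : ℝ) ^ η := Real.one_le_rpow (by linarith) hη0.le
    have hlH : Real.log ((D : ℝ) ^ η) = η * Real.log D := Real.log_rpow hx0 _
    have hcond : Real.log ((D : ℝ) ^ η) +
        (Δ : ℝ) ^ 2 * (Real.log 2 + 2 * Real.log ((D : ℝ) ^ η)) ≤ η' * Real.log D := by
      rw [hlH]
      have h1 := mul_le_mul_of_nonneg_right hη2 hL0.le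
      nlinarith
    have hent := log_entry_le hcop hH hv hz i
    rw [hlH] at hent
    have hh : Real.log 2 + η * Real.log D + hgt y ≤ (1 + 2 * ε) * hgt y := by
      have h1 : η * Real.log D ≤ ε * (η' * Real.log D) := by
        have := mul_le_mul_of_nonneg_right hη1 hL0.le
        linarith
      have h2 : ε * (η' * Real.log D) ≤ ε * hgt y := mul_le_mul_of_nonneg_left hlow'.le hε0.le
      linarith
    have hh0 : 0 < hgt y := lt_trans (by positivity) hlow'
    obtain ⟨m, hm, hmle⟩ : ∃ m : ℝ, ((m = min (hgt y) (4 * Real.log D)) ∨ (A < 5 ∧ m = hgt y)) ∧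
        (1 + 2 * ε) * hgt y ≤ c * ((1 - ε) * m) := by
      by_cases hA5 : A < 5
      · refine ⟨hgt y, Or.inr ⟨hA5, rfl⟩, ?_⟩
        have := mul_le_mul_of_nonneg_right hεc hh0.le
        linarith
      · refine ⟨_, Or.inl rfl, ?_⟩
        rcases le_total (hgt y) (4 * Real.log D) with h1 | h1
        · rw [min_eq_left h1]
          have := mul_le_mul_of_nonneg_right hεc hh0.le
          linarith
        · rw [min_eq_right h1]
          have h2 := mul_le_mul_of_nonneg_right (hεA hA5) hL0.le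
          have h3 : (1 + 2 * ε) * hgt y ≤ (1 + 2 * ε) * ((A + 1 + ε) * Real.log D) := by
            apply mul_le_mul_of_nonneg_left _ (by linarith)
            linarith
          linarith
    have hrad := rad_ge hcop hone hH hcond hm hd hv hz
    have hz0 : 0 < |(z i : ℝ)| := abs_pos.2 (by exact_mod_cast hz.1 i)
    have hr0 : (0 : ℝ) < rad (∏ i, z i) := by exact_mod_cast rad_pos _
    rw [← Real.log_le_log_iff hz0 (Real.rpow_pos_of_pos hr0 _), Real.log_rpow hr0]
    have hd0 : (0 : ℝ) ≤ d := Nat.cast_nonneg _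
    calc Real.log |(z i : ℝ)| ≤ d * (Real.log 2 + η * Real.log D + hgt y) := hent
      _ ≤ d * (c * ((1 - ε) * m)) := mul_le_mul_of_nonneg_left (hh.trans hmle) hd0
      _ = c * d / q * (q * ((1 - ε) * m)) := by
          field_simp
      _ ≤ c * d / q * Real.log (rad (∏ i, z i)) :=
          mul_le_mul_of_nonneg_left hrad (by positivity)
  exact_mod_cast Set.ncard_le_ncard hsub (hfin.subset fun g hg => hg.1)

end Pool.Agent.Results.MP_7ecdd4_nt.EveryPointCurves
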