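import Pool.Agent.Results.MP_7ecdd4_nt.AllRationalCurvesAtOnce
import Pool.Agent.W5h9.GC.NC5

/-!
# The strong n-conjecture on split rational curves near the numbers with restricted partial quotients

Let `𝒜` be a finite set of positive integers and let `E_𝒜` be the (fractal) set of the numbers
`[0; a_0, a_1, …]` with all partial quotients in `𝒜`, a set of Lebesgue measure zero. We assume that
its Hausdorff dimension `δ` is larger than `1 / 2`, as for `𝒜 = {1, 2, 3}`.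

Let `ξ ∈ E_𝒜` and let `t` be a rational number close to `ξ`, for example a convergent of `ξ`. We
consider the tuples of coprime integers which are proportional to `(P 0 (t), …, P (n - 1) (t))`, for
ALL tuples of pairwise coprime polynomials `P 0, …, P (n - 1)` of maximal degree `D` with integral
coefficients of absolute value at most `H(t) ^ κ`, with rational zeros only, with sum zero and with
altogether `q` zeros on the projective line (structure `Curve` of the file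
`AllRationalCurvesAtOnce`); the polynomials may depend on `t`. We prove that for almost all
`ξ ∈ E_𝒜` (for the Hausdorff measure of dimension `δ`) there is for all `n`, `D`, `q` and all
`M > D / q` some `κ > 0` such that for all but finitely many rational `t` with
`|ξ - t| ≤ H(t) ^ (κ - 2)` all these tuples satisfy `max |z i| ≤ rad ^ M`. One has
`D / q < n - 2`, so the strong `n`-conjecture holds for them with the exponent `n - 2`. The numbers
`ξ` for which this fails for some `n`, `D`, `q` and `M` with `D / q ≤ θ M` form a set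
of Hausdorff dimension at most `δ - (1 - θ) (δ - 1 / 2)`.

The definitions `EA`, `δ`, `Near` and `hgt` are in `Pool.Agent.W5h9.GC`:

* `K w = (q, p)`, where `[0; w] = p / q` is the finite continued fraction of the word `w`,
  `pre a n = [a 0, …, a (n - 1)]`, and `val a` is the limit of the `p / q` with `K (pre a n) = (q, p)`;
* `EA 𝒜` is the set of the `val a` with all `a i ∈ 𝒜`, and `δ 𝒜` is its Hausdorff dimension;
* `hgt x = log max (|p|, |q|)` for `x = (p, q)`;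
* `Near ρ ξ`: the pairs `x = (p, q)` of coprime integers, `q > 0`, with `|ξ - p / q| ≤ q ^ (ρ - 2)`.
-/

set_option autoImplicit false

namespace Pool.Agent.Results.MP_7ecdd4_nt.RestrictedPartialQuotients

open Polynomial MeasureTheory
open Pool.Agent.Results.MP_7ecdd4_nt.AllRationalCurvesAtOnce (Curve rad)
open Pool.Agent.W5h9.GC (EA δ Near hgt)

/-- The tuples of coprime integers (with greatest common divisor one) which are proportional to
`(P 0 (t), …, P (n - 1) (t))`. -/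
def AtPoint {n : ℕ} (P : Fin n → ℤ[X]) (t : ℚ) : Set (Fin n → ℤ) :=
  {z | (∀ d : ℤ, (∀ i, d ∣ z i) → IsUnit d) ∧ ∃ r : ℚ, ∀ i, (z i : ℚ) = r * aeval t (P i)}

/-- The inequality `max |z i| ≤ rad ^ M` at the rational number `t = p / q`, `x = (p, q)`, for all
curves with coefficients at most `H(t) ^ κ`; the values of the polynomials at `t` are not zero. -/
def Holds (n D q : ℕ) (M κ : ℝ) (x : ℤ × ℤ) : Prop :=
  ∀ P : Fin n → ℤ[X], Curve n D q (Real.exp (κ * hgt x)) P →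
    (∀ i, aeval ((x.1 : ℚ) / x.2) (P i) ≠ 0) ∧
    ∀ z ∈ AtPoint P ((x.1 : ℚ) / x.2), ∀ i, |(z i : ℝ)| ≤ (rad z : ℝ) ^ M

/-- For some `κ > 0` this is true at all but finitely many rational `t` with
`|ξ - t| ≤ H(t) ^ (κ - 2)`. -/
def Property (n D q : ℕ) (M ξ : ℝ) : Prop :=
  ∃ κ : ℝ, 0 < κ ∧ {x | x ∈ Near κ ξ ∧ ¬ Holds n D q M κ x}.Finite

theorem property_of {θ ξ κ : ℝ} (hκ : 0 < κ) (hκ2 : κ < 2)
    (hfin : {x | x ∈ Near κ ξ ∧ ¬ Pool.Agent.W5h9.GC.Good (1 - θ - κ) κ x}.Finite) {n D q : ℕ} {M : ℝ}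
    (hD : 1 ≤ D) (hq : 3 ≤ q) (hM : 0 < M) (h : (D : ℝ) ≤ θ * (q * M)) : Property n D q M ξ := by
  have hqr : (3 : ℝ) ≤ q := by exact_mod_cast hq
  have hs : (D : ℝ) < M * ((1 - (1 - θ - κ)) * q) := by
    have : 0 < M * (κ * q) := by positivity
    nlinarith
  obtain ⟨κ₂, H₀, h1, h2, h3⟩ := Pool.Agent.W5h9.GC.nc_good n D q hM hκ hs
  refine ⟨κ₂, h1, Pool.Agent.W5h9.GC.fin_of_good (ε := 1 - θ - κ) (κ := κ) (H₀ := H₀) h2 (by linarith) hfin ?_⟩
  intro x hx1 hx2 hH hgood P hP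
  obtain ⟨⟨i₀, j₀, hij₀⟩, -⟩ := AllRationalCurvesAtOnce.curve_data hD hq hP
  have hn : ∀ i : Fin n, ∃ j, i ≠ j := by
    intro i
    by_cases h4 : i = i₀
    · exact ⟨j₀, by rw [h4]; exact hij₀⟩
    · exact ⟨i₀, h4⟩
  have hcard : (Pool.Agent.W5h9.GC.ptsA D P).card = q := by
    rw [Pool.Agent.W5h9.GC.ptsA_card D hP.ne_zero, ← hP.points]
    unfold AllRationalCurvesAtOnce.zeros
    congr 1
  obtain ⟨k1, k2⟩ := h3 x hx1 hx2 hH hgood P hn hP.ne_zero hP.splits hP.coprime hP.coprime_infinity hP.degree_le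
    hP.small hcard
  exact ⟨k1, fun z hz i => k2 z hz.1 hz.2 i⟩

/-- **The strong n-conjecture on all split rational curves near the numbers with restricted partial
quotients.** Let `𝒜` be a finite set of positive integers with `dim E_𝒜 > 1 / 2` (this is true if
`∑ 1 / (a + 1) > 1` for some finite subset).
(1) For `0 < θ < 1` the `ξ ∈ E_𝒜` such that for some `n`, `D ≥ 1`, `q ≥ 3` and `M` with
`D / q ≤ θ M` the property fails form a set of Hausdorff dimension at most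
`δ - (1 - θ) (δ - 1 / 2)`.
(2) For almost all `ξ ∈ E_𝒜` it is true for all `n`, `D ≥ 1`, `q ≥ 3` and `M > D / q`, and
(3) for all `n`, `D ≥ 1`, `q ≥ 3` and `M = n - 2`.
(4) Infinitely many rational `t` satisfy `|ξ - t| ≤ H(t) ^ (ρ - 2)` if `ξ ∈ E_𝒜` and `ρ ≥ 0`. -/
theorem result {𝒜 : Set ℕ} {A : ℕ} (hA : ∀ a ∈ 𝒜, 1 ≤ a ∧ a ≤ A) :
    ((∃ F : Finset ℕ, (∀ a ∈ F, a ∈ 𝒜) ∧ 1 < ∑ a ∈ F, 1 / ((a : ℝ) + 1)) → 1 / 2 < δ 𝒜) ∧
    (1 / 2 < δ 𝒜 →
      dimH (EA 𝒜) = ENNReal.ofReal (δ 𝒜) ∧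
      (∀ θ : ℝ, 0 < θ → θ < 1 →
        dimH {ξ | ξ ∈ EA 𝒜 ∧ ∃ (n D q : ℕ) (M : ℝ), 1 ≤ D ∧ 3 ≤ q ∧ (D : ℝ) / q ≤ θ * M ∧
          ¬ Property n D q M ξ} ≤ ENNReal.ofReal (δ 𝒜 - (1 - θ) * (δ 𝒜 - 1 / 2))) ∧
      Measure.hausdorffMeasure (δ 𝒜) {ξ | ξ ∈ EA 𝒜 ∧ ∃ (n D q : ℕ) (M : ℝ), 1 ≤ D ∧ 3 ≤ q ∧
        (D : ℝ) / q < M ∧ ¬ Property n D q M ξ} = 0 ∧
      Measure.hausdorffMeasure (δ 𝒜) {ξ | ξ ∈ EA 𝒜 ∧ ∃ (n D q : ℕ), 1 ≤ D ∧ 3 ≤ q ∧
        ¬ Property n D q ((n : ℝ) - 2) ξ} = 0 ∧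
      ∀ ξ ∈ EA 𝒜, ∀ ρ : ℝ, 0 ≤ ρ → (Near ρ ξ).Infinite) := by
  refine ⟨fun ⟨F, hF, h⟩ => Pool.Agent.W5h9.GC.half_lt hA hF h, fun hδ => ?_⟩
  have h1 : ∀ θ : ℝ, 0 < θ → θ < 1 →
      dimH {ξ | ξ ∈ EA 𝒜 ∧ ∃ (n D q : ℕ) (M : ℝ), 1 ≤ D ∧ 3 ≤ q ∧ (D : ℝ) / q ≤ θ * M ∧
        ¬ Property n D q M ξ} ≤ ENNReal.ofReal (δ 𝒜 - (1 - θ) * (δ 𝒜 - 1 / 2)) := by
    intro θ hθ0 hθ1
    have h2 := Pool.Agent.W5h9.GC.dim_of_notBad hA hδ (ε := 1 - θ) (by linarith) (by linarith)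
      (fun ξ => ∀ (n D q : ℕ) (M : ℝ), 1 ≤ D → 3 ≤ q → (D : ℝ) / q ≤ θ * M → Property n D q M ξ) ?_
    · refine le_trans (dimH_mono ?_) h2
      rintro ξ ⟨hξ, n, D, q, M, hD, hq, hM, hnot⟩
      exact ⟨hξ, fun hcon => hnot (hcon n D q M hD hq hM)⟩
    · intro ξ _ κ hκ _ hκ2 hfin n D q M hD hq hM
      have hqr : (3 : ℝ) ≤ q := by exact_mod_cast hq
      have hDr : (1 : ℝ) ≤ D := by exact_mod_cast hD
      have hM' : (D : ℝ) ≤ θ * (q * M) := by
        rw [div_le_iff₀ (by linarith)] at hM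
        linarith
      have hM0 : 0 < M := by
        by_contra hcon
        push Not at hcon
        have : θ * (q * M) ≤ 0 := by
          have : (q : ℝ) * M ≤ 0 := mul_nonpos_of_nonneg_of_nonpos (by linarith) hcon
          exact mul_nonpos_of_nonneg_of_nonpos hθ0.le this
        linarith
      exact property_of hκ hκ2 hfin hD hq hM0 hM'
  have h2 : Measure.hausdorffMeasure (δ 𝒜) {ξ | ξ ∈ EA 𝒜 ∧ ∃ (n D q : ℕ) (M : ℝ), 1 ≤ D ∧ 3 ≤ q ∧
        (D : ℝ) / q < M ∧ ¬ Property n D q M ξ} = 0 := by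
    have hsub : {ξ | ξ ∈ EA 𝒜 ∧ ∃ (n D q : ℕ) (M : ℝ), 1 ≤ D ∧ 3 ≤ q ∧
        (D : ℝ) / q < M ∧ ¬ Property n D q M ξ} ⊆
        ⋃ k : ℕ, {ξ | ξ ∈ EA 𝒜 ∧ ∃ (n D q : ℕ) (M : ℝ), 1 ≤ D ∧ 3 ≤ q ∧
          (D : ℝ) / q ≤ (1 - 1 / ((k : ℝ) + 2)) * M ∧ ¬ Property n D q M ξ} := by
      rintro ξ ⟨hξ, n, D, q, M, hD, hq, hM, hnot⟩
      have hqr : (3 : ℝ) ≤ q := by exact_mod_cast hq
      have hDr : (1 : ℝ) ≤ D := by exact_mod_cast hD
      have hDq : 0 < (D : ℝ) / q := by positivity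
      have hM0 : 0 < M := hDq.trans hM
      obtain ⟨k, hk⟩ := exists_nat_one_div_lt (show 0 < (M - (D : ℝ) / q) / M from div_pos (by linarith) hM0)
      rw [Set.mem_iUnion]
      refine ⟨k, hξ, n, D, q, M, hD, hq, ?_, hnot⟩
      have h3 : 1 / ((k : ℝ) + 2) ≤ 1 / ((k : ℝ) + 1) := one_div_le_one_div_of_le (by positivity) (by linarith)
      have h4 : 1 / ((k : ℝ) + 2) < (M - (D : ℝ) / q) / M := lt_of_le_of_lt h3 hk
      rw [lt_div_iff₀ hM0] at h4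
      linarith
    refine measure_mono_null hsub (measure_iUnion_null fun k => ?_)
    have hk : (0 : ℝ) < 1 / ((k : ℝ) + 2) := by positivity
    have hk1 : 1 / ((k : ℝ) + 2) < 1 := by
      rw [div_lt_one (by positivity)]
      have : (0 : ℝ) ≤ k := Nat.cast_nonneg k
      linarith
    have h3 := h1 (1 - 1 / ((k : ℝ) + 2)) (by linarith) (by linarith)
    rw [sub_sub_cancel] at h3
    exact Pool.Agent.W5h9.GC.null_of_dim' hδ hk h3
  refine ⟨(Pool.Agent.W5h9.GC.dimH_EA 𝒜).1, h1, h2, ?_, fun ξ hξ ρ hρ => Pool.Agent.W5h9.GC.near_inf hA hξ hρ⟩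
  refine measure_mono_null ?_ h2
  rintro ξ ⟨hξ, n, D, q, hD, hq, hnot⟩
  by_cases hex : ∃ (H : ℝ) (P : Fin n → ℤ[X]), Curve n D q H P
  · obtain ⟨H, P, hP⟩ := hex
    obtain ⟨hn3, hDq⟩ := (AllRationalCurvesAtOnce.result n D q hD hq).1 H P hP
    refine ⟨hξ, n, D, q, (n : ℝ) - 2, hD, hq, ?_, hnot⟩
    have hqr : (3 : ℝ) ≤ q := by exact_mod_cast hq
    rw [div_lt_iff₀ (by linarith)]
    have h3 : ((n - 2 : ℕ) : ℝ) = (n : ℝ) - 2 := by
      rw [Nat.cast_sub (by omega)]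
      norm_num
    rw [← h3]
    exact_mod_cast hDq
  · exfalso
    apply hnot
    refine ⟨1, one_pos, ?_⟩
    have : {x | x ∈ Near 1 ξ ∧ ¬ Holds n D q ((n : ℝ) - 2) 1 x} = ∅ := by
      rw [Set.eq_empty_iff_forall_notMem]
      rintro x ⟨-, hx⟩
      exact hx fun P hP => absurd ⟨_, P, hP⟩ hex
    rw [this]
    exact Set.finite_empty

end Pool.Agent.Results.MP_7ecdd4_nt.RestrictedPartialQuotients
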