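import Pool.Agent.W5h37.Thin.Strong
import Pool.Agent.W5h37.Thin.Digits
import Pool.Agent.W5h37.Thin.Smooth2

set_option autoImplicit false

/-!
# The strong `n`-conjecture for almost all tuples built from elements of thin sets

Let `A_1, …, A_m` be arbitrary thin sets of integers from `1` to `X` such that no arithmetic
progression with `N` terms contains more than `X ^ η |A_i| (N / X) ^ θ` elements of `A_i`, for some
exponent `θ > 1 / 2`. For all `a ∈ A_1 × ⋯ × A_m` outside an exceptional set which is smaller than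
`A_1 × ⋯ × A_m` by a power of `X` the following holds for ALL `n` and ALL integral `n × m`-matrices
`u` with entries at most `X ^ η`: if the `n`-tuple `x = u a` is admissible (nonzero, pairwise coprime,
sum zero) then `max |x_j| ≤ rad (x_1 ⋯ x_n) ^ ((1 + ε) / n)`.

Integers with restricted digits and smooth numbers are examples. The exponent `1 / 2` of the
condition is best possible: for squares the inequality fails with the exponent `(3 / 2) / n` in place of
`(1 + ε) / n` for at least half of the pairs `(a_1, a_2)`, already for the triples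
`(a_1, a_2, - a_1 - a_2)`.

The definitions (all in `Pool.Agent.W5h37.Thin`):

* `Spread X θ K A`: `A` is a nonempty set of integers from `1` to `X`, and every arithmetic
  progression with `N ≥ 1` terms contains at most `K |A| (N / X) ^ θ` elements of `A`.
* `lin u a`: `∑ i, u i * a i`.
* `rad x`: the product of the primes dividing `x`.
* `Admissible x`: the integers `x j` are nonzero and pairwise coprime and have the sum zero.
* `StrongN ε H a`: for all `n` and all integral matrices `u` of absolute value at most `H` for which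
  `x j = lin (u j) a`, `j < n`, is admissible, `|x j| ≤ rad (∏ k, x k) ^ ((1 + ε) / n)` for all `j`.
* `Restricted g D n`: the positive integers below `g ^ n` whose digit number `i` in base `g` is in
  `D i`, for all `i < n` (leading zeros count as digits).
* `Squares X`: the positive squares up to `X`.
-/

namespace Pool.Agent.Results.MP_7ecdd4_nt.SpreadTuples

open Filter Pool.Agent.W5h37.Thin

open Classical in
/-- **The strong `n`-conjecture for almost all tuples built from elements of thin sets.** -/
theorem result :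
    -- (1) The inequality.
    (∀ (m : ℕ) (θ ε : ℝ), 1 / 2 < θ → θ ≤ 1 → 0 < ε →
      ∃ δ η : ℝ, 0 < δ ∧ 0 < η ∧ ∀ᶠ X : ℕ in atTop, ∀ A : Fin m → Finset ℕ,
        (∀ i, Spread X θ ((X : ℝ) ^ η) (A i)) →
          (((Fintype.piFinset A).filter fun a => ¬ StrongN ε ((X : ℝ) ^ η) a).card : ℝ) ≤
            (X : ℝ) ^ (-δ) * (Fintype.piFinset A).card) ∧
    -- (2) Integers with restricted digits, at least `g ^ θ` digits being allowed at each place.
    (∀ (g : ℕ) (D : ℕ → Finset ℕ) (θ η : ℝ), 2 ≤ g → (∀ i, D i ⊆ Finset.range g) → 0 < θ → θ ≤ 1 →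
      (∀ i, (g : ℝ) ^ θ ≤ (D i).card) → 0 < η →
      ∀ᶠ n : ℕ in atTop, Spread (g ^ n) θ (((g ^ n : ℕ) : ℝ) ^ η) (Restricted g D n)) ∧
    -- (3) Smooth numbers: all prime factors less than `k`, where `k ≥ (log X) ^ κ` and `κ > 2`.
    (∀ κ η : ℝ, 2 < κ → 0 < η → ∀ᶠ X : ℕ in atTop, ∀ k : ℕ, (Real.log X) ^ κ ≤ k →
      Spread X (1 - 1 / κ) ((X : ℝ) ^ η) (Nat.smoothNumbersUpTo X k)) ∧
    -- (4) The exponent `1 / 2` is not enough, already for `m = 2`: the squares.
    (∀ η : ℝ, 0 < η → ∀ᶠ X : ℕ in atTop, Spread X (1 / 2) ((X : ℝ) ^ η) (Squares X)) ∧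
    (∀ ε : ℝ, ε ≤ 1 / 2 → ∀ X : ℕ,
      ((Fintype.piFinset fun _ : Fin 2 => Squares X).card : ℝ) / 2 ≤
        ((Fintype.piFinset fun _ : Fin 2 => Squares X).filter fun a => ¬ StrongN ε 1 a).card) := by
  refine ⟨?_, ?_, ?_, ?_, ?_⟩
  · intro m θ ε hθ hθ1 hε
    obtain ⟨δ, η, hδ, hη, h⟩ := strong_main m θ ε hθ hθ1 hε
    refine ⟨δ, η, hδ, hη, ?_⟩
    filter_upwards [h] with X hX A hA
    obtain ⟨S, _, hS, hgood⟩ := hX A hA
    rw [Fintype.card_piFinset]
    push_cast
    refine le_trans ?_ hS
    have : (Fintype.piFinset A).filter (fun a => ¬ StrongN ε ((X : ℝ) ^ η) a) ⊆ S := by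
      intro a ha
      rw [Finset.mem_filter] at ha
      by_contra hcon
      exact ha.2 (hgood a ha.1 hcon)
    exact_mod_cast Finset.card_le_card this
  · intro g D θ η hg hD hθ0 hθ1 hD2 hη
    have hg1 : (1 : ℝ) < g := by exact_mod_cast (by omega : 1 < g)
    have htop : Tendsto (fun n : ℕ => g ^ n) atTop atTop :=
      tendsto_pow_atTop_atTop_of_one_lt (by omega)
    filter_upwards [htop.eventually (ev_const (4 * (g : ℝ) ^ 2) η hη), eventually_ge_atTop 1] with
      n hn hn1
    have h := spread_digits hg hD hθ0 hθ1 hD2 hn1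
    refine ⟨h.1, h.2.1, fun c d N hd hN => (h.2.2 c d N hd hN).trans ?_⟩
    have h0 := h.card_pos
    gcongr
  · intro κ η hκ hη
    exact spread_smooth hκ hη
  · intro η hη
    exact spread_squares η hη
  · intro ε hε X
    obtain ⟨S, hS, hc, hbad⟩ := squares_half hε X
    rw [Fintype.card_piFinset, Finset.prod_const, Finset.card_univ, Fintype.card_fin]
    push_cast
    refine hc.trans ?_
    have : S ⊆ (Fintype.piFinset fun _ : Fin 2 => Squares X).filter fun a => ¬ StrongN ε 1 a :=
      fun a ha => Finset.mem_filter.2 ⟨hS ha, hbad a ha⟩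
    exact_mod_cast Finset.card_le_card this

end Pool.Agent.Results.MP_7ecdd4_nt.SpreadTuples
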